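import Mathlib
import Pool.Agent.W2helper39.FB.OnGm
import Pool.Agent.W2helper39.FB.Conv

/-!
# MP_70ba79_ag: degrees of curves of bounded complexity in arbitrary quasi-projective varieties

`U = {G = 0, Q ≠ 0}` is an arbitrary quasi-projective variety over `ℂ`, or a family of such varieties:
the coordinates are the parameters `s` and the projective coordinates `x`, and `G`, `Q` are polynomials
in `s` and `x` with complex coefficients (affine varieties: the equation `x_0 = 1`, `Q = 1`, or a form
`Q` of positive degree). The complexity `m` is fixed. A curve is given by its function field `L`; an
affine curve by a finite set `S` of places (the points at infinity). `height ℂ x` is the degree of the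
map to projective space with the homogeneous coordinates `x`, `canDeg ℂ L = 2 g - 2`, `hgt ℂ f` is the
degree of the function `f`. `Pool/Agent/W2helper39/FB/Defs.lean` contains the definitions.

A map from the affine curve to a fibre of `U` has complexity `m` if its projective coordinates are sums
of `m` functions, each of them zero or a unit (without zeros and poles on the affine curve), and `Q (x)`
is a unit. More generally we study the points `x` over `L` (`IsPoint`) with nonconstant parameters `s`
whose coordinates are sums of `m` terms `a u`, `a` a function and `u` a function all of whose zeros and
poles outside `S` have orders divisible by `N`, with `Q (x) = q v ≠ 0`, `v` a function of the same kind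
as the `u`. `size` is the sum of `max (2 g - 2 + #S, 0)` and the degrees of all `s`, `a` and `q`.

`Dichotomy`: there are `N₀`, `C` and a finite set of vectors of exponents, such that for `N ≥ N₀` all
points `x` as above have degree at most `C` times `size`, or lie on a nonconstant curve
`t ↦ (∑ i, a c i * u c i * t ^ b c i)_c`, `t` in the multiplicative group over `L`, in the fibre of
`U` over `s`, with `b` in the finite set.

Consequently, for an arbitrary closed set `V' = {H = 0}` the following conditions are equivalent.

`GmIn`: all nonconstant maps of complexity `m` from the punctured line to fibres of `U` lie in `V'`.

`FibreBound`: for each fibre over `ℂ`, the degrees of the maps of complexity `m` from affine curves,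
with images not in `V'`, are bounded by a function `β` of `2 g - 2 + #S`.

`LinearBound`: they are at most `C max (2 g - 2 + #S, 0)`, with the same `C` for all fibres.

`PowerBound`: all points as above outside `V'` with `N ≥ N₀` have degree at most `C` times `size`.
-/

set_option autoImplicit false

namespace Pool.Agent.Results.MP_70ba79_ag.BoundedComplexity

open MvPolynomial
open Pool.Agent.W2helper39.FB

/-- Let `U = {G = 0, Q ≠ 0}` be any family of quasi-projective varieties over `ℂ` and `m` a number. The
points over function fields whose coordinates are sums of `m` terms have degree at most `C` times
`size`, or they lie on curves `t ↦ (∑ i, a c i * u c i * t ^ b c i)_c` in `U` for finitely many vectors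
of exponents `b`. For every closed set `V' = {H = 0}` the conditions `GmIn`, `FibreBound`, `LinearBound`
and `PowerBound` are equivalent. -/
theorem result (m r M : ℕ) (ι : Type) [Finite ι] (G : ι → MvPolynomial (Fin r ⊕ Fin M) ℂ)
    (Q : MvPolynomial (Fin r ⊕ Fin M) ℂ) :
    Dichotomy m G Q ∧ ∀ (κ : Type) (H : κ → MvPolynomial (Fin r ⊕ Fin M) ℂ),
      List.TFAE [GmIn m G Q H, FibreBound m G Q H, LinearBound m G Q H, PowerBound m G Q H] :=
  ⟨dich m G Q, fun _ _ => tfae⟩

end Pool.Agent.Results.MP_70ba79_ag.BoundedComplexity
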