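import Pool.Agent.W2helper39.LC.Imp

/-!
# Degrees of affine curves: the complements of smooth hypersurfaces in projective spaces suffice

Over `k = ℂ`. Let `U = V(S) ∖ {H = 0}` be any affine variety in `P^n`, `n ≥ 1` (any dimension and any
singularities; `S` a set of forms of degree at most `d`, `d ≥ 3`, and `H` a form of degree `e ≥ 1`, `e` a
divisor of `d`), and `v : P^n → P^N` the Veronese embedding of degree `d`. For all `D ≥ D₁(N)` there are a
linear form `ℓ` and quadratic forms `Q_t`, `t < N (2 N + 3)`, such that the hypersurface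

`A = ℓ(y)^(D + 2) + ∑ t, Q_t(y) (y_0 + t y_1 + ⋯ + t^N y_N)^D = 0`

of degree `D + 2` in `P^N` is smooth, `v` embeds `U` as a closed subvariety of its complement
`W = P^N ∖ {A = 0}`, every closed subvariety of `W` of positive dimension which is not of log general type
is in `v(U)`, and every morphism `f : C → W` from an affine curve `C` of genus `g` with `s` points at
infinity is a morphism to `v(U)` or satisfies the inequality `deg f ≤ max (2 g - 2 + s, 0)`.

So the conclusion of Q1 holds for `W` outside of `v(U)` with `β(χ) = max (χ, 0)`, and the smallest closed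
subset of `W` outside of which the degrees of the curves are bounded in terms of `2 g - 2 + s` is that of
`U`. Consequently Q1 for all irreducible affine varieties (singular ones included) is equivalent to the
following statement on the complements `W = P^N ∖ {A = 0}` of the smooth hypersurfaces of this form, with
`D` in any given infinite set of exponents: no irreducible component of positive dimension of the
smallest closed subset of `W` outside of which the degrees of the curves are bounded in terms of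
`2 g - 2 + s` is of log general type.

In the starting file `SmoothHypersurfacesSuffice` the affine varieties are embedded in affine varieties
`Y ∖ {H' = 0}` with a smooth projective hypersurface `Y`, with a bound for the degrees of the projective
curves in `Y`; the points at infinity play no role there. Here the sum of the terms `-A, ℓ^(D + 2),
Q_t ℓ_t^D` is considered, where `A` has zeros at the points at infinity only.

(Morphisms which are birational onto their image suffice by the formula of Riemann and Hurwitz.)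
-/

set_option autoImplicit false

namespace Pool.Agent.Results.MP_70ba79_ag.HypersurfaceComplements

open MvPolynomial FF
open Pool.Agent.W603.LV (canDeg)
open Pool.Agent.W603.PV (pht)
open Pool.Agent.N254.SQ (IsForm Eqs Component NotIn ValueNotIn LogGeneral OnSpecialQ OnDegreesQ
  SmoothForm Monomials veronese Gen)
open Pool.Agent.W2helper39.LC (affineForm)

/-- `V ∖ {H = 0}` is an irreducible affine variety of dimension `w ≥ 1`, where `V` is the closed subset
of `P^n` with function field `L` and generic point `y`, and `H` is a form of degree `≥ 1` -/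
structure AffineVariety {n : ℕ} (H : MvPolynomial (Fin (n + 1)) ℂ) (L : Type) [Field L]
    [Algebra ℂ L] (w : ℕ) (y : Fin (n + 1) → L) : Prop where
  form : ∃ e, 1 ≤ e ∧ H.IsHomogeneous e
  pos : 1 ≤ w
  gen : Gen L w y
  ne : aeval y H ≠ 0

/-- Q1 for all irreducible affine varieties of positive dimension, smooth or not -/
def LangVojtaCurves : Prop :=
  ∀ (n : ℕ) (H : MvPolynomial (Fin (n + 1)) ℂ) (L : Type) [Field L] [Algebra ℂ L] (w : ℕ)
    (y : Fin (n + 1) → L), AffineVariety H L w y → LogGeneral {H} L w y →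
      ∃ G : MvPolynomial (Fin (n + 1)) ℂ, IsForm G ∧ aeval y G ≠ 0 ∧ OnDegreesQ (Eqs y) {H} G

/-- no irreducible component of positive dimension of the exceptional set of `P^N ∖ {A = 0}` for the
degrees of affine curves is of log general type -/
def NoComponent {N : ℕ} (A : MvPolynomial (Fin (N + 1)) ℂ) : Prop :=
  ∀ (L : Type) [Field L] [Algebra ℂ L] (w : ℕ) (y : Fin (N + 1) → L), AffineVariety A L w y →
    LogGeneral {A} L w y → ¬ Component (OnDegreesQ ∅ {A}) y

section

variable {n N : ℕ} (m : Fin (N + 1) → Fin (n + 1) → ℕ) (S : Set (MvPolynomial (Fin (n + 1)) ℂ))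
  (A : MvPolynomial (Fin (N + 1)) ℂ)

/-- closed subvarieties of `P^N ∖ {A = 0}` of positive dimension are of log general type or lie in
`v(X)` -/
def SpecialIn : Prop :=
  ∀ (L : Type) [Field L] [Algebra ℂ L] (w : ℕ) (y : Fin (N + 1) → L), 1 ≤ w → Gen L w y →
    aeval y A ≠ 0 → LogGeneral {A} L w y ∨
      ∃ (x : Fin (n + 1) → L) (c : L), x ≠ 0 ∧ c ≠ 0 ∧ (∀ p ∈ S, aeval x p = 0) ∧
        y = c • veronese m x

/-- for every smooth projective curve of genus `g` (function field `E`) and every finite set `s` of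
points of it, the morphisms from the curve without `s` to `P^N ∖ {A = 0}` lie in `v(X)` or have degree
at most `max (2 g - 2 + #s, 0)` -/
def CurvesIn : Prop :=
  ∀ (E : Type) [Field E] [Algebra ℂ E] [IsFF ℂ E] (s : Finset (Place ℂ E))
    (y : Fin (N + 1) → E), y ≠ 0 → (∀ P ∉ s, ValueNotIn {A} y P) →
    pht ℂ y ≤ max (canDeg ℂ E + s.card) 0 ∨
      ∃ (x : Fin (n + 1) → E) (c : E), x ≠ 0 ∧ c ≠ 0 ∧ (∀ p ∈ S, aeval x p = 0) ∧
        y = c • veronese m x

end

section proof

open Pool.Agent.N254.SQ (Mon ver Exc t_num t_qforw t_qspec t_qdeg t_cent t_hform)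
open Pool.Agent.W2helper39.LC (ConsC imp_c trans_special trans_degrees affine_hom)

theorem notIn_iff {n : ℕ} {H : MvPolynomial (Fin (n + 1)) ℂ} {L : Type} [Field L] [Algebra ℂ L]
    {y : Fin (n + 1) → L} : NotIn {H} y ↔ aeval y H ≠ 0 := by
  unfold NotIn
  constructor
  · rintro ⟨F, hF, h⟩
    rw [Set.mem_singleton_iff] at hF
    rwa [hF] at h
  · intro h
    exact ⟨H, rfl, h⟩

/-- the theorem, from the construction -/
theorem assembly {D₁ : ℕ → ℕ} (HC : ConsC D₁) :
    (∀ n d : ℕ, 1 ≤ n → 3 ≤ d → ∃ (N : ℕ) (m : Fin (N + 1) → Fin (n + 1) → ℕ),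
      Monomials n N d m ∧ ∀ D, D₁ N ≤ D →
        ∀ S : Set (MvPolynomial (Fin (n + 1)) ℂ), (∀ p ∈ S, ∃ e ≤ d, p.IsHomogeneous e) →
        ∀ (e : ℕ) (H : MvPolynomial (Fin (n + 1)) ℂ), 1 ≤ e → e ∣ d → H.IsHomogeneous e →
        ∃ (ℓ : MvPolynomial (Fin (N + 1)) ℂ)
          (Q : Fin (N * (2 * N + 3)) → MvPolynomial (Fin (N + 1)) ℂ), ℓ.IsHomogeneous 1 ∧
          (∀ t, (Q t).IsHomogeneous 2) ∧ SmoothForm (affineForm D ℓ Q) ∧
          (∀ x : Fin (n + 1) → ℂ, (∀ p ∈ S, eval x p = 0) →
            (eval (veronese m x) (affineForm D ℓ Q) = 0 ↔ eval x H = 0)) ∧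
          SpecialIn m S (affineForm D ℓ Q) ∧ CurvesIn m S (affineForm D ℓ Q) ∧
          ∀ G, IsForm G → ∀ G₀, G₀ = aeval
              (fun a => ∏ j, (X j : MvPolynomial (Fin (n + 1)) ℂ) ^ m a j) G →
            (OnDegreesQ ∅ {affineForm D ℓ Q} G ↔ OnDegreesQ S {H} G₀) ∧
            (OnSpecialQ ∅ {affineForm D ℓ Q} G ↔ OnSpecialQ S {H} G₀)) ∧
    ∀ E : Set ℕ, E.Infinite →
      (LangVojtaCurves ↔
        ∀ (N D : ℕ) (ℓ : MvPolynomial (Fin (N + 1)) ℂ)
          (Q : Fin (N * (2 * N + 3)) → MvPolynomial (Fin (N + 1)) ℂ), D ∈ E →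
          D₁ N ≤ D → ℓ.IsHomogeneous 1 → (∀ t, (Q t).IsHomogeneous 2) →
          SmoothForm (affineForm D ℓ Q) → NoComponent (affineForm D ℓ Q)) := by
  have hdeg := t_qdeg t_cent t_hform
  refine ⟨?_, ?_⟩
  · intro n d hn hd
    obtain ⟨N, m, hm, hN⟩ := t_num n d hn hd
    refine ⟨N, m, ⟨hm.deg, hm.inj, hm.surj⟩, fun D hD S hS1 e H he hed hH => ?_⟩
    obtain ⟨ℓ, Q, hℓ, hQ, hsm, hg⟩ := HC n d hn hd N m hm hN D hD S hS1 e H he hed hH
    refine ⟨ℓ, Q, hℓ, hQ, hsm, fun x hx => ?_, fun L _ _ w y hw hy _ => hg.special L w y hw hy,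
      hg.alg, ?_⟩
    · have := hg.eval_iff hx
      rw [Ne, Ne, not_iff_not] at this
      exact this
    · rintro G hG _ rfl
      exact ⟨trans_degrees hg hG, trans_special hg hG⟩
  · intro E hE
    constructor
    · intro h3 N D ℓ Q _ _ hℓ hQ _ L _ _ w y hy hlg
      have hAh := affine_hom D hℓ hQ
      refine t_qforw.imp (fun _ S T G => OnDegreesQ S T G) hdeg N {affineForm D ℓ Q} ?_ ∅ L w y
        hy.pos hy.gen (notIn_iff.2 hy.ne) hlg
      intro L' _ _ w' y' hw' hy' hne' hlog'
      exact h3 N _ L' w' y' ⟨⟨_, by omega, hAh⟩, hw', hy', notIn_iff.1 hne'⟩ hlog'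
    · intro h n H L _ _ w y hy hlog
      obtain ⟨e, he, hH⟩ := hy.form
      refine imp_c HC hE hdeg (fun _ _ _ _ _ _ _ hg _ hG => trans_degrees hg hG) ?_ n e H he hH
        L w y hy.pos hy.gen (notIn_iff.2 hy.ne) hlog
      intro N D ℓ Q hD hD1 hℓ hQ hsm L _ _ w y hw hy hn hlg
      exact h N D ℓ Q hD hD1 hℓ hQ hsm L w y
        ⟨⟨_, by omega, affine_hom _ hℓ hQ⟩, hw, hy, notIn_iff.1 hn⟩ hlg

end proof

theorem result : ∃ D₁ : ℕ → ℕ,
    (∀ n d : ℕ, 1 ≤ n → 3 ≤ d → ∃ (N : ℕ) (m : Fin (N + 1) → Fin (n + 1) → ℕ),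
      Monomials n N d m ∧ ∀ D, D₁ N ≤ D →
        ∀ S : Set (MvPolynomial (Fin (n + 1)) ℂ), (∀ p ∈ S, ∃ e ≤ d, p.IsHomogeneous e) →
        ∀ (e : ℕ) (H : MvPolynomial (Fin (n + 1)) ℂ), 1 ≤ e → e ∣ d → H.IsHomogeneous e →
        ∃ (ℓ : MvPolynomial (Fin (N + 1)) ℂ)
          (Q : Fin (N * (2 * N + 3)) → MvPolynomial (Fin (N + 1)) ℂ), ℓ.IsHomogeneous 1 ∧
          (∀ t, (Q t).IsHomogeneous 2) ∧ SmoothForm (affineForm D ℓ Q) ∧
          (∀ x : Fin (n + 1) → ℂ, (∀ p ∈ S, eval x p = 0) →
            (eval (veronese m x) (affineForm D ℓ Q) = 0 ↔ eval x H = 0)) ∧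
          SpecialIn m S (affineForm D ℓ Q) ∧ CurvesIn m S (affineForm D ℓ Q) ∧
          ∀ G, IsForm G → ∀ G₀, G₀ = aeval
              (fun a => ∏ j, (X j : MvPolynomial (Fin (n + 1)) ℂ) ^ m a j) G →
            (OnDegreesQ ∅ {affineForm D ℓ Q} G ↔ OnDegreesQ S {H} G₀) ∧
            (OnSpecialQ ∅ {affineForm D ℓ Q} G ↔ OnSpecialQ S {H} G₀)) ∧
    ∀ E : Set ℕ, E.Infinite →
      (LangVojtaCurves ↔
        ∀ (N D : ℕ) (ℓ : MvPolynomial (Fin (N + 1)) ℂ)
          (Q : Fin (N * (2 * N + 3)) → MvPolynomial (Fin (N + 1)) ℂ), D ∈ E →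
          D₁ N ≤ D → ℓ.IsHomogeneous 1 → (∀ t, (Q t).IsHomogeneous 2) →
          SmoothForm (affineForm D ℓ Q) → NoComponent (affineForm D ℓ Q)) := by
  obtain ⟨D₁, H⟩ := Pool.Agent.W2helper39.LC.cons_all
  exact ⟨D₁, assembly H⟩

end Pool.Agent.Results.MP_70ba79_ag.HypersurfaceComplements
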