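import Mathlib
import Pool.Agent.W2helper39.FB.Final

/-!
# MP_70ba79_ag: curves of bounded complexity in families of varieties of log general type

The coordinates are the parameters `s` and the projective coordinates `x`; `G`, `Q` are polynomials in
`s` and `x` with complex coefficients, and `{F = 0, R ≠ 0}` is a locally closed set in the space of the
parameters, the base. For all points `s` of the base over `ℂ` we assume that `G (s, ·) = 0` is a smooth
irreducible projective variety `X_s` of dimension `N`, that the zero set `D_s` of the form `Q (s, ·)` on
`X_s` is a divisor with strict normal crossings (we do not assume that its components are given by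
equations which depend algebraically on `s`), and that `X_s - D_s` is nonempty and of log general type.

A curve is given by its function field `L`; an affine curve by a finite set `S` of places (the points at
infinity). The points `x` of `X_s - D_s` over `L` (`IsPoint`) which we consider are those whose
projective coordinates are sums of `m` terms `a u`, `a` a function and `u` a function all of whose zeros
and poles outside `S` have orders divisible by `N`, with `Q (s, x) = q v ≠ 0`, `v` a function of the
same kind as the `u`. For instance, `a` and `q` are zeros and ones and `u`, `v` are units of the affine
curve: then `x` is a map from the affine curve to `X_s - D_s` whose coordinates are sums of at most `m`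
units. `size` is the sum of `max (2 g - 2 + #S, 0)` and the degrees of all `a` and `q` (and of `s`).

`UniformFibres`: for every `m` there are `N₀`, `C` and a finite list of polynomials `H i`, forms in `x`,
such that for all `s` there is an `i` such that `H i (s, ·)` does not vanish on all of `X_s - D_s`, and
all points `x` as above with `N ≥ N₀` and `H i (s, x) ≠ 0` have degree at most `C` times `size`.
-/

set_option autoImplicit false

namespace Pool.Agent.Results.MP_70ba79_ag.UniformFamilies

open MvPolynomial
open Pool.Agent.W2helper39.FB

/-- Let all fibres `X_s - D_s` over the points `s` of the base `{F = 0, R ≠ 0}` over `ℂ` be of log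
general type, `X_s = {G (s, ·) = 0}` smooth projective, `D_s = {Q (s, ·) = 0}` with strict normal
crossings. For every `m` the degrees of the curves of complexity `m` in `X_s - D_s`, outside of
exceptional hypersurface sections `H i (s, ·) = 0` for a finite list of `H i`, satisfy a linear bound
with the same constant for all `s`. -/
theorem result (m f r N c g : ℕ) (G : Fin g → MvPolynomial (Fin r ⊕ Fin (N + 1 + c)) ℂ)
    (Q : MvPolynomial (Fin r ⊕ Fin (N + 1 + c)) ℂ) (F : Fin f → MvPolynomial (Fin r) ℂ)
    (R : MvPolynomial (Fin r) ℂ)
    (h : ∀ s : Fin r → ℂ, OnBase F R s → GeneralTypePair N (fun j => fib s (G j)) (fib s Q)) :
    UniformFibres m G Q F R :=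
  (uniform m G Q F R h).1

end Pool.Agent.Results.MP_70ba79_ag.UniformFamilies
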